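import Pool.Agent.H937.QS.Stm3

open scoped Matrix TensorProduct
open Pool.Agent.H937.QS
universe u
namespace Pool.Agent.H350.QS.FG

open Polynomial

variable {k B M : Type u} [Field k] [CommRing B] [Algebra k B] [Field M] [Algebra k M] {n : ℕ}

lemma coeff_mem (ev : B →ₐ[k] (Fin n → M)) (R : Subalgebra k M) (b : B) (h : ∀ q, ev b q ∈ R)
    (m : ℕ) : (∏ q, (Polynomial.X - Polynomial.C (ev b q))).coeff m ∈ R := by
  have h1 : ∏ q, (Polynomial.X - Polynomial.C (ev b q)) =
      (∏ q, (Polynomial.X - Polynomial.C (⟨ev b q, h q⟩ : R))).map (algebraMap R M) := by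
    rw [Polynomial.map_prod]
    refine Finset.prod_congr rfl fun q _ => ?_
    rw [Polynomial.map_sub, Polynomial.map_X, Polynomial.map_C]
    rfl
  rw [h1, Polynomial.coeff_map]
  exact (Polynomial.coeff _ m : R).2

lemma val_mem (ev : B →ₐ[k] (Fin n → M)) (s : Finset B) (hs : Algebra.adjoin k (s : Set B) = ⊤)
    (b : B) (q : Fin n) : ev b q ∈ Algebra.adjoin k {y : M | ∃ t ∈ s, ∃ q, y = ev t q} := by
  have hb : b ∈ Algebra.adjoin k (s : Set B) := by rw [hs]; trivial
  induction hb using Algebra.adjoin_induction with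
  | mem x hx => exact Algebra.subset_adjoin ⟨x, hx, q, rfl⟩
  | algebraMap r =>
    rw [AlgHom.commutes]
    exact Subalgebra.algebraMap_mem _ r
  | add x y _ _ hx hy =>
    rw [map_add]
    exact Subalgebra.add_mem _ hx hy
  | mul x y _ _ hx hy =>
    rw [map_mul]
    exact Subalgebra.mul_mem _ hx hy

lemma int_val (ev : B →ₐ[k] (Fin n → M)) (b : B) (q : Fin n) : IsIntegral (Esym k ev) (ev b q) := by
  have h1 : ∏ q, (Polynomial.X - Polynomial.C (ev b q)) ∈
      Polynomial.lifts (algebraMap (Esym k ev) M) := by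
    rw [Polynomial.lifts_iff_coeff_lifts]
    intro m
    exact ⟨⟨_, Algebra.subset_adjoin ⟨b, m, rfl⟩⟩, rfl⟩
  have h2 : (∏ q, (Polynomial.X - Polynomial.C (ev b q))).Monic :=
    Polynomial.monic_prod_of_monic _ _ fun q _ => Polynomial.monic_X_sub_C _
  obtain ⟨p, hp, -, hpm⟩ := Polynomial.lifts_and_natDegree_eq_and_monic h1 h2
  refine ⟨p, hpm, ?_⟩
  rw [← Polynomial.eval_map, hp, Polynomial.eval_prod]
  refine Finset.prod_eq_zero (Finset.mem_univ q) ?_
  rw [Polynomial.eval_sub, Polynomial.eval_X, Polynomial.eval_C, sub_self]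

theorem t_FG : S_FG.{u} := by
  intro k B M _ _ _ hft _ _ n ev
  obtain ⟨s, hs⟩ := hft.out
  set E : Subalgebra k M := Esym k ev with hE
  set G : Set M := {y : M | ∃ t ∈ s, ∃ q, y = ev t q} with hG
  have hGfin : G.Finite := by
    have h1 : G = ⋃ t ∈ (s : Set B), Set.range (fun q => ev t q) := by
      ext y
      simp only [hG, Set.mem_iUnion, Set.mem_range]
      constructor
      · rintro ⟨t, ht, q, rfl⟩
        exact ⟨t, ht, q, rfl⟩
      · rintro ⟨t, ht, q, rfl⟩
        exact ⟨t, ht, q, rfl⟩
    rw [h1]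
    exact s.finite_toSet.biUnion fun t _ => Set.finite_range _
  have hER : E ≤ Algebra.adjoin k G := by
    refine Algebra.adjoin_le ?_
    rintro x ⟨b, m, rfl⟩
    exact coeff_mem ev _ b (fun q => val_mem ev s hs b q) m
  set C : Subalgebra E M := Algebra.adjoin E G with hC
  have hCk : C.restrictScalars k = Algebra.adjoin k G := by
    refine le_antisymm ?_ ?_
    · intro x hx
      rw [Subalgebra.mem_restrictScalars] at hx
      induction hx using Algebra.adjoin_induction with
      | mem x hx => exact Algebra.subset_adjoin hx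
      | algebraMap r => exact hER r.2
      | add x y _ _ hx hy => exact Subalgebra.add_mem _ hx hy
      | mul x y _ _ hx hy => exact Subalgebra.mul_mem _ hx hy
    · refine Algebra.adjoin_le ?_
      intro x hx
      rw [Subalgebra.coe_restrictScalars]
      exact Algebra.subset_adjoin hx
  have hAC : (⊤ : Subalgebra k C).FG := by
    have h1 : (C.restrictScalars k).FG := by
      rw [hCk]
      exact ⟨hGfin.toFinset, by rw [Set.Finite.coe_toFinset]⟩
    exact (C.restrictScalars k).fg_top.2 h1
  have hBC : (⊤ : Submodule E C).FG := by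
    have h1 : (Subalgebra.toSubmodule C).FG :=
      fg_adjoin_of_finite hGfin (by
        rintro x ⟨t, _, q, rfl⟩
        exact int_val ev t q)
    exact (Submodule.fg_top (Subalgebra.toSubmodule C)).2 h1
  have hinj : Function.Injective (algebraMap E C) := by
    intro x y hxy
    have h1 := congrArg (fun z : C => (z : M)) hxy
    exact Subtype.ext h1
  have h2 : (⊤ : Subalgebra k E).FG := fg_of_fg_of_fg k E C hAC hBC hinj
  exact E.fg_top.1 h2

end Pool.Agent.H350.QS.FG
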